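import Pool.Agent.Helper61.ZMain

/-!
Zero-sum spanning trees in a complete graph minus an arbitrary matching.
-/

set_option autoImplicit false

namespace Pool.Agent.Results.MP_0ed58c_co.AnyMatching

/-- For every `m` and every matching `M` of the complete graph on `m + 1` vertices, with any number of edges: if
no spanning tree of the complement of `M` has colour sum `0` for the colouring `c` of its edges with elements of
`ZMod m`, then `c` takes at most two values. -/
theorem result (m : ℕ) (M : SimpleGraph (Fin (m + 1))) (hM : ∀ v, (M.neighborSet v).Subsingleton)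
    (c : Sym2 (Fin (m + 1)) → ZMod m)
    (hc : ∀ T : SimpleGraph (Fin (m + 1)), T ≤ Mᶜ → T.IsTree → (∑ᶠ e ∈ T.edgeSet, c e) ≠ 0) :
    (c '' Mᶜ.edgeSet).ncard ≤ 2 := by
  by_contra h
  obtain ⟨T, h1, h2, h3⟩ := Pool.Agent.Helper61.ZST.main m M hM c (by omega)
  exact hc T h1 h2 h3

end Pool.Agent.Results.MP_0ed58c_co.AnyMatching
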